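import Mathlib

/-!
Random-set zero forcing: the threshold probability of graphs containing a `k`-clique is not
bounded below by a constant times `sqrt (k/n)`.
-/

namespace Pool.Agent.Results.MP_4451bf_co.CliqueThreshold

open Finset

/-- The vertices that are eventually blue when the vertices of `B` are blue at the start: a blue
vertex `u` all of whose neighbours other than `v` are blue makes its neighbour `v` blue. -/
inductive Blue {V : Type} (G : SimpleGraph V) (B : Finset V) : V → Prop
  | start {v : V} : v ∈ B → Blue G B v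
  | force {u v : V} : Blue G B u → G.Adj u v → (∀ w, G.Adj u w → w ≠ v → Blue G B w) → Blue G B v

/-- `B` is a zero forcing set of `G`. -/
def IsZeroForcing {V : Type} (G : SimpleGraph V) (B : Finset V) : Prop := ∀ v, Blue G B v

open Classical in
/-- The probability that the random set which contains each vertex independently with
probability `p` is a zero forcing set of `G`. -/
noncomputable def prob {V : Type} [Fintype V] (G : SimpleGraph V) (p : ℝ) : ℝ :=
  ∑ B : Finset V, p ^ B.card * (1 - p) ^ (univ \ B).card * if IsZeroForcing G B then 1 else 0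

/-- `p` is the threshold probability of `G`. -/
def IsThreshold {V : Type} [Fintype V] (G : SimpleGraph V) (p : ℝ) : Prop :=
  0 ≤ p ∧ p ≤ 1 ∧ prob G p = 1 / 2

/-! ### Expectations over random subsets -/

section expect

variable {V : Type} [DecidableEq V]

/-- Expectation of `f` over the random subset of `S`. -/
noncomputable def ex (q : ℝ) (S : Finset V) (f : Finset V → ℝ) : ℝ :=
  ∑ B ∈ S.powerset, q ^ B.card * (1 - q) ^ (S \ B).card * f B

theorem ex_insert (q : ℝ) (S : Finset V) (f : Finset V → ℝ) (x : V) (hx : x ∉ S) :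
    ex q (insert x S) f = (1 - q) * ex q S f + q * ex q S (fun B => f (insert x B)) := by
  unfold ex
  rw [Finset.sum_powerset_insert hx, Finset.mul_sum, Finset.mul_sum]
  congr 1
  · apply Finset.sum_congr rfl
    intro B hB
    have hB' := Finset.mem_powerset.mp hB
    have hxB : x ∉ B := fun h => hx (hB' h)
    rw [Finset.insert_sdiff_of_notMem _ hxB, Finset.card_insert_of_notMem]
    · ring
    · intro h
      exact hx (Finset.mem_sdiff.mp h).1
  · apply Finset.sum_congr rfl
    intro B hB
    have hB' := Finset.mem_powerset.mp hB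
    have hxB : x ∉ B := fun h => hx (hB' h)
    have : insert x S \ insert x B = S \ B := by
      ext y
      simp only [Finset.mem_sdiff, Finset.mem_insert, not_or]
      constructor
      · rintro ⟨h1 | h1, h2, h3⟩
        · exact absurd h1 h2
        · exact ⟨h1, h3⟩
      · rintro ⟨h1, h2⟩
        exact ⟨Or.inr h1, fun h => hx (h ▸ h1), h2⟩
    rw [this, Finset.card_insert_of_notMem hxB]
    ring

theorem ex_empty (q : ℝ) (f : Finset V → ℝ) : ex q ∅ f = f ∅ := by
  simp [ex]

theorem ex_congr (q : ℝ) (S : Finset V) (f g : Finset V → ℝ) (h : ∀ B, B ⊆ S → f B = g B) :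
    ex q S f = ex q S g := by
  unfold ex
  apply Finset.sum_congr rfl
  intro B hB
  rw [h B (Finset.mem_powerset.mp hB)]

theorem ex_one (q : ℝ) (S : Finset V) : ex q S (fun _ => 1) = 1 := by
  induction S using Finset.induction_on with
  | empty => simp [ex_empty]
  | insert x S hx ih => rw [ex_insert q S _ x hx, ih]; ring

theorem ex_zero (q : ℝ) (S : Finset V) : ex q S (fun _ => 0) = 0 := by
  simp [ex]

theorem ex_mono (q : ℝ) (h0 : 0 ≤ q) (h1 : q ≤ 1) (S : Finset V) (f g : Finset V → ℝ)
    (h : ∀ B, f B ≤ g B) : ex q S f ≤ ex q S g := by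
  unfold ex
  apply Finset.sum_le_sum
  intro B _
  have h2 : 0 ≤ 1 - q := by linarith
  have : 0 ≤ q ^ B.card * (1 - q) ^ (S \ B).card := by positivity
  exact mul_le_mul_of_nonneg_left (h B) this

theorem ex_sub (q : ℝ) (S : Finset V) (f g : Finset V → ℝ) :
    ex q S (fun B => f B - g B) = ex q S f - ex q S g := by
  unfold ex
  rw [← Finset.sum_sub_distrib]
  apply Finset.sum_congr rfl
  intro B _
  ring

theorem ex_sum {ι : Type} (q : ℝ) (S : Finset V) (J : Finset ι) (f : ι → Finset V → ℝ) :
    ex q S (fun B => ∑ j ∈ J, f j B) = ∑ j ∈ J, ex q S (f j) := by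
  unfold ex
  rw [Finset.sum_comm]
  apply Finset.sum_congr rfl
  intro B _
  rw [Finset.mul_sum]

theorem ex_indep (q : ℝ) (f : Finset V → ℝ) (e : Finset V) :
    ∀ S : Finset V, e ⊆ S → (∀ x ∈ e, ∀ B, f (insert x B) = f B) →
      ex q S (fun B => if e ⊆ B then f B else 0) = q ^ e.card * ex q S f := by
  induction e using Finset.induction_on with
  | empty => intro S _ _; simp
  | insert x e hx ih =>
    intro S hS hf
    have hxS : x ∈ S := hS (Finset.mem_insert_self x e)
    have hS2 : S = insert x (S.erase x) := (Finset.insert_erase hxS).symm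
    have hx2 : x ∉ S.erase x := Finset.notMem_erase x S
    rw [hS2, ex_insert q _ _ x hx2, ex_insert q _ _ x hx2]
    have h1 : ex q (S.erase x) (fun B => if insert x e ⊆ B then f B else 0) = 0 := by
      refine Eq.trans (ex_congr q (S.erase x) _ (fun _ => 0) ?_) (ex_zero q (S.erase x))
      intro B hB
      rw [if_neg]
      intro h
      exact hx2 (hB (h (Finset.mem_insert_self x e)))
    have h2 : ex q (S.erase x) (fun B => if insert x e ⊆ insert x B then f (insert x B) else 0)
        = ex q (S.erase x) (fun B => if e ⊆ B then f B else 0) := by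
      apply ex_congr
      intro B hB
      have : insert x e ⊆ insert x B ↔ e ⊆ B := by
        constructor
        · intro h y hy
          have := h (Finset.mem_insert_of_mem hy)
          rcases Finset.mem_insert.mp this with h3 | h3
          · exact absurd (h3 ▸ hy) hx
          · exact h3
        · intro h
          exact Finset.insert_subset_insert x h
      simp only [this, hf x (Finset.mem_insert_self x e)]
    have h3 : ex q (S.erase x) (fun B => f (insert x B)) = ex q (S.erase x) f := by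
      apply ex_congr
      intro B _
      exact hf x (Finset.mem_insert_self x e) B
    have h4 : e ⊆ S.erase x := by
      intro y hy
      rw [Finset.mem_erase]
      exact ⟨fun h => hx (h ▸ hy), hS (Finset.mem_insert_of_mem hy)⟩
    rw [h1, h2, h3, ih (S.erase x) h4 (fun y hy => hf y (Finset.mem_insert_of_mem hy)),
      Finset.card_insert_of_notMem hx]
    ring

theorem ex_avoid {ι : Type} [DecidableEq ι] (q : ℝ) (S : Finset V) (e : ι → Finset V)
    (m : ℕ) (J : Finset ι) :
    (∀ j ∈ J, e j ⊆ S) → (∀ j ∈ J, (e j).card = m) →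
    (∀ i ∈ J, ∀ j ∈ J, i ≠ j → Disjoint (e i) (e j)) →
      ex q S (fun B => if ∀ j ∈ J, ¬ e j ⊆ B then 1 else 0) = (1 - q ^ m) ^ J.card := by
  induction J using Finset.induction_on with
  | empty => intro _ _ _; simp [ex_one]
  | insert j0 J hj ih =>
    intro h1 h2 h3
    have ih' := ih (fun j hj => h1 j (Finset.mem_insert_of_mem hj))
      (fun j hj => h2 j (Finset.mem_insert_of_mem hj))
      (fun i hi j hj => h3 i (Finset.mem_insert_of_mem hi) j (Finset.mem_insert_of_mem hj))
    set f : Finset V → ℝ := fun B => if ∀ j ∈ J, ¬ e j ⊆ B then 1 else 0 with hf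
    have hind : ∀ x ∈ e j0, ∀ B, f (insert x B) = f B := by
      intro x hx B
      have : (∀ j ∈ J, ¬ e j ⊆ insert x B) ↔ (∀ j ∈ J, ¬ e j ⊆ B) := by
        apply forall₂_congr
        intro j hjJ
        have hxj : x ∉ e j := by
          intro h
          have hne : j0 ≠ j := fun h5 => hj (h5 ▸ hjJ)
          exact (Finset.disjoint_left.mp (h3 j0 (Finset.mem_insert_self _ _) j
            (Finset.mem_insert_of_mem hjJ) hne)) hx h
        rw [Finset.subset_insert_iff_of_notMem hxj]
      simp only [hf, this]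
    have hind2 := ex_indep q f (e j0) S (h1 j0 (Finset.mem_insert_self _ _)) hind
    have heq : ex q S (fun B => if ∀ j ∈ insert j0 J, ¬ e j ⊆ B then 1 else 0)
        = ex q S (fun B => f B - if e j0 ⊆ B then f B else 0) := by
      apply ex_congr
      intro B _
      by_cases h5 : e j0 ⊆ B
      · rw [if_neg, if_pos h5]
        · ring
        · intro h
          exact h j0 (Finset.mem_insert_self _ _) h5
      · rw [if_neg h5]
        simp only [hf, Finset.forall_mem_insert, h5, not_false_eq_true, true_and, sub_zero]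
    rw [heq, ex_sub, hind2, ih', Finset.card_insert_of_notMem hj,
      h2 j0 (Finset.mem_insert_self _ _)]
    ring

end expect

/-! ### The graph -/

/-- Vertices: `a` paths with `2L` vertices each, `k` rows of `a+1` vertices, a clique of size
`k`. -/
abbrev VV (a L k : ℕ) : Type := (Fin a × Fin (2 * L)) ⊕ ((Fin k × Fin (a + 1)) ⊕ Fin k)

variable {a L k : ℕ}

/-- Generating relation of the graph. -/
def rel : VV a L k → VV a L k → Prop
  | .inl p, .inl p' => p.1 = p'.1 ∧ p.2.val + 1 = p'.2.val
  | .inl p, .inr (.inl r) => r.1.val = 0 ∧ p.2.val + 1 = 2 * L ∧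
      (r.2.val = p.1.val ∨ r.2.val = p.1.val + 1)
  | .inr (.inl r), .inr (.inl r') => r.1.val + 1 = r'.1.val ∧ r.2.val < a ∧
      (r'.2.val = r.2.val ∨ r'.2.val = r.2.val + 1)
  | .inr (.inl r), .inr (.inr t) => r.1 = t ∧ r.2.val = a
  | .inr (.inr t), .inr (.inr t') => t ≠ t'
  | _, _ => False

/-- The graph. -/
def GG (a L k : ℕ) : SimpleGraph (VV a L k) := SimpleGraph.fromRel rel

theorem adj_P (i : Fin a) (z : Fin (2 * L)) (w : VV a L k) (hz : z.val + 1 < 2 * L)
    (h : (GG a L k).Adj (.inl (i, z)) w) :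
    ∃ z' : Fin (2 * L), w = .inl (i, z') ∧ (z'.val = z.val + 1 ∨ z'.val + 1 = z.val) := by
  rw [GG, SimpleGraph.fromRel_adj] at h
  rcases w with ⟨i', z'⟩ | ⟨t, j⟩ | t
  · rcases h.2 with h1 | h1
    · simp only [rel] at h1
      exact ⟨z', by rw [h1.1], Or.inl h1.2.symm⟩
    · simp only [rel] at h1
      exact ⟨z', by rw [h1.1], Or.inr h1.2⟩
  · rcases h.2 with h1 | h1
    · simp only [rel] at h1
      omega
    · simp only [rel] at h1
  · rcases h.2 with h1 | h1 <;> simp only [rel] at h1

theorem adj_last (i : Fin a) (z : Fin (2 * L)) (w : VV a L k)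
    (h : (GG a L k).Adj (.inl (i, z)) w) :
    (∃ i' z', w = .inl (i', z')) ∨ (∃ (t : Fin k) (j : Fin (a + 1)), w = .inr (.inl (t, j)) ∧
      t.val = 0 ∧ (j.val = i.val ∨ j.val = i.val + 1)) := by
  rw [GG, SimpleGraph.fromRel_adj] at h
  rcases w with ⟨i', z'⟩ | ⟨t, j⟩ | t
  · exact Or.inl ⟨i', z', rfl⟩
  · right
    rcases h.2 with h1 | h1
    · simp only [rel] at h1
      exact ⟨t, j, rfl, h1.1, h1.2.2⟩
    · simp only [rel] at h1
  · rcases h.2 with h1 | h1 <;> simp only [rel] at h1

theorem adj_R (t : Fin k) (j : Fin (a + 1)) (w : VV a L k)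
    (h : (GG a L k).Adj (.inr (.inl (t, j))) w) :
    (∃ i z, w = .inl (i, z)) ∨ (∃ (t' : Fin k) (j' : Fin (a + 1)), w = .inr (.inl (t', j')) ∧
      t'.val + 1 = t.val) ∨
    (∃ (t' : Fin k) (j' : Fin (a + 1)), w = .inr (.inl (t', j')) ∧ t.val + 1 = t'.val ∧
      j.val < a ∧ (j'.val = j.val ∨ j'.val = j.val + 1)) ∨
    (w = .inr (.inr t) ∧ j.val = a) := by
  rw [GG, SimpleGraph.fromRel_adj] at h
  rcases w with ⟨i', z'⟩ | ⟨t', j'⟩ | t'
  · exact Or.inl ⟨i', z', rfl⟩
  · rcases h.2 with h1 | h1
    · simp only [rel] at h1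
      exact Or.inr (Or.inr (Or.inl ⟨t', j', rfl, h1⟩))
    · simp only [rel] at h1
      exact Or.inr (Or.inl ⟨t', j', rfl, h1.1⟩)
  · rcases h.2 with h1 | h1
    · simp only [rel] at h1
      exact Or.inr (Or.inr (Or.inr ⟨by rw [h1.1], h1.2⟩))
    · simp only [rel] at h1

theorem adjPP (i : Fin a) (z z' : Fin (2 * L)) (h : z.val + 1 = z'.val) :
    (GG a L k).Adj (.inl (i, z)) (.inl (i, z')) := by
  rw [GG, SimpleGraph.fromRel_adj]
  refine ⟨?_, Or.inl ⟨rfl, h⟩⟩
  intro h1
  have : z = z' := by simpa using h1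
  rw [this] at h
  omega

theorem adjPR (i : Fin a) (z : Fin (2 * L)) (t : Fin k) (j : Fin (a + 1)) (ht : t.val = 0)
    (hz : z.val + 1 = 2 * L) (hj : j.val = i.val ∨ j.val = i.val + 1) :
    (GG a L k).Adj (.inl (i, z)) (.inr (.inl (t, j))) := by
  rw [GG, SimpleGraph.fromRel_adj]
  exact ⟨by simp, Or.inl ⟨ht, hz, hj⟩⟩

theorem adjRR (t t' : Fin k) (j j' : Fin (a + 1)) (ht : t.val + 1 = t'.val) (hj : j.val < a)
    (hj' : j'.val = j.val ∨ j'.val = j.val + 1) :
    (GG a L k).Adj (.inr (.inl (t, j))) (.inr (.inl (t', j'))) := by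
  rw [GG, SimpleGraph.fromRel_adj]
  refine ⟨?_, Or.inl ⟨ht, hj, hj'⟩⟩
  intro h1
  have : t = t' ∧ j = j' := by simpa using h1
  rw [this.1] at ht
  omega

theorem adjRC (t : Fin k) (j : Fin (a + 1)) (hj : j.val = a) :
    (GG a L k).Adj (.inr (.inl (t, j))) (.inr (.inr t)) := by
  rw [GG, SimpleGraph.fromRel_adj]
  exact ⟨by simp, Or.inl ⟨rfl, hj⟩⟩

/-! ### Flooding -/

theorem path_blue (B : Finset (VV a L k)) (i : Fin a) (x : ℕ) (hx : 2 * x + 1 < 2 * L)
    (h0 : (.inl (i, ⟨2 * x, by omega⟩) : VV a L k) ∈ B)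
    (h1 : (.inl (i, ⟨2 * x + 1, hx⟩) : VV a L k) ∈ B) (z : Fin (2 * L)) :
    Blue (GG a L k) B (.inl (i, z)) := by
  have up : ∀ y, ∀ hy : 2 * x + y + 1 < 2 * L,
      Blue (GG a L k) B (.inl (i, ⟨2 * x + y, by omega⟩)) ∧
      Blue (GG a L k) B (.inl (i, ⟨2 * x + y + 1, hy⟩)) := by
    intro y
    induction y with
    | zero => intro hy; exact ⟨Blue.start h0, Blue.start h1⟩
    | succ y ih =>
      intro hy
      obtain ⟨g1, g2⟩ := ih (by omega)
      refine ⟨g2, ?_⟩
      refine Blue.force g2 (adjPP i _ _ (by simp only; omega)) ?_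
      intro w hw hne
      obtain ⟨z', rfl, hz'⟩ := adj_P i _ w (by simp only; omega) hw
      rcases hz' with hz' | hz'
      · exfalso
        apply hne
        congr 2
        apply Fin.ext
        simp only at hz' ⊢
        omega
      · have : z' = ⟨2 * x + y, by omega⟩ := by
          apply Fin.ext
          simp only at hz' ⊢
          omega
        rw [this]
        exact g1
  have down : ∀ y, ∀ hy : y ≤ 2 * x,
      Blue (GG a L k) B (.inl (i, ⟨2 * x - y, by omega⟩)) ∧
      Blue (GG a L k) B (.inl (i, ⟨2 * x - y + 1, by omega⟩)) := by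
    intro y
    induction y with
    | zero => intro hy; exact ⟨Blue.start h0, Blue.start h1⟩
    | succ y ih =>
      intro hy
      obtain ⟨g1, g2⟩ := ih (by omega)
      have e1 : (⟨2 * x - (y + 1) + 1, by omega⟩ : Fin (2 * L)) = ⟨2 * x - y, by omega⟩ := by
        apply Fin.ext
        simp only
        omega
      refine ⟨?_, by rw [e1]; exact g1⟩
      refine Blue.force g1 (adjPP i _ _ (by simp only; omega)).symm ?_
      intro w hw hne
      obtain ⟨z', rfl, hz'⟩ := adj_P i _ w (by simp only; omega) hw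
      rcases hz' with hz' | hz'
      · have : z' = ⟨2 * x - y + 1, by omega⟩ := by
          apply Fin.ext
          simp only at hz' ⊢
          omega
        rw [this]
        exact g2
      · exfalso
        apply hne
        congr 2
        apply Fin.ext
        simp only at hz' ⊢
        omega
  by_cases hz : z.val ≤ 2 * x
  · have := (down (2 * x - z.val) (by omega)).1
    have e : (⟨2 * x - (2 * x - z.val), by omega⟩ : Fin (2 * L)) = z := by
      apply Fin.ext
      simp only
      omega
    rwa [e] at this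
  · have hz2 := z.isLt
    have := (up (z.val - 2 * x - 1) (by omega)).2
    have e : (⟨2 * x + (z.val - 2 * x - 1) + 1, by omega⟩ : Fin (2 * L)) = z := by
      apply Fin.ext
      simp only
      omega
    rwa [e] at this

theorem row_spread (B : Finset (VV a L k)) (t : Fin k) (h : Fin a → VV a L k)
    (hb : ∀ i, Blue (GG a L k) B (h i))
    (hadj : ∀ i, ∀ j : Fin (a + 1), (j.val = i.val ∨ j.val = i.val + 1) →
      (GG a L k).Adj (h i) (.inr (.inl (t, j))))
    (hn : ∀ i w, (GG a L k).Adj (h i) w → Blue (GG a L k) B w ∨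
      ∃ j : Fin (a + 1), w = .inr (.inl (t, j)) ∧ (j.val = i.val ∨ j.val = i.val + 1))
    (j0 : Fin (a + 1)) (hj0 : (.inr (.inl (t, j0)) : VV a L k) ∈ B) (j : Fin (a + 1)) :
    Blue (GG a L k) B (.inr (.inl (t, j))) := by
  have up : ∀ y, ∀ hy : j0.val + y < a + 1,
      Blue (GG a L k) B (.inr (.inl (t, ⟨j0.val + y, hy⟩))) := by
    intro y
    induction y with
    | zero => intro hy; exact Blue.start hj0
    | succ y ih =>
      intro hy
      have g := ih (by omega)
      refine Blue.force (hb ⟨j0.val + y, by omega⟩) (hadj _ _ (by simp only; omega)) ?_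
      intro w hw hne
      rcases hn _ w hw with h1 | ⟨j', rfl, h2 | h2⟩
      · exact h1
      · have : j' = ⟨j0.val + y, by omega⟩ := Fin.ext h2
        rw [this]
        exact g
      · exfalso
        apply hne
        congr 3
        apply Fin.ext
        simp only at h2 ⊢
        omega
  have down : ∀ y, ∀ hy : y ≤ j0.val,
      Blue (GG a L k) B (.inr (.inl (t, ⟨j0.val - y, by omega⟩))) := by
    intro y
    induction y with
    | zero => intro hy; exact Blue.start hj0
    | succ y ih =>
      intro hy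
      have g := ih (by omega)
      have := j0.isLt
      refine Blue.force (hb ⟨j0.val - (y + 1), by omega⟩) (hadj _ _ (Or.inl rfl)) ?_
      intro w hw hne
      rcases hn _ w hw with h1 | ⟨j', rfl, h2 | h2⟩
      · exact h1
      · exfalso
        apply hne
        congr 3
        apply Fin.ext
        simp only at h2 ⊢
        omega
      · have : j' = ⟨j0.val - y, by omega⟩ := by
          apply Fin.ext
          simp only at h2 ⊢
          omega
        rw [this]
        exact g
  by_cases hz : j.val ≤ j0.val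
  · have := down (j0.val - j.val) (by omega)
    have e : (⟨j0.val - (j0.val - j.val), by omega⟩ : Fin (a + 1)) = j := by
      apply Fin.ext
      simp only
      omega
    rwa [e] at this
  · have := up (j.val - j0.val) (by omega)
    have e : (⟨j0.val + (j.val - j0.val), by omega⟩ : Fin (a + 1)) = j := by
      apply Fin.ext
      simp only
      omega
    rwa [e] at this

/-- The deterministic statement: a set which contains two consecutive vertices (in even position)
of each path and a vertex of each row is zero forcing. -/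
theorem flood (ha : 0 < a) (B : Finset (VV a L k))
    (hp : ∀ i : Fin a, ∃ x : Fin L, (.inl (i, ⟨2 * x.val, by omega⟩) : VV a L k) ∈ B ∧
      (.inl (i, ⟨2 * x.val + 1, by omega⟩) : VV a L k) ∈ B)
    (hr : ∀ t : Fin k, ∃ j : Fin (a + 1), (.inr (.inl (t, j)) : VV a L k) ∈ B) :
    IsZeroForcing (GG a L k) B := by
  have hP : ∀ i z, Blue (GG a L k) B (.inl (i, z)) := by
    intro i z
    obtain ⟨x, h0, h1⟩ := hp i
    exact path_blue B i x.val (by omega) h0 h1 z
  have hL : 0 < L := by
    obtain ⟨x, _⟩ := hp ⟨0, ha⟩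
    exact lt_of_le_of_lt (Nat.zero_le _) x.isLt
  have hR : ∀ s, ∀ t : Fin k, t.val ≤ s → ∀ j, Blue (GG a L k) B (.inr (.inl (t, j))) := by
    intro s
    induction s with
    | zero =>
      intro t ht j
      obtain ⟨j0, hj0⟩ := hr t
      refine row_spread B t (fun i => .inl (i, ⟨2 * L - 1, by omega⟩)) (fun i => hP _ _) ?_ ?_
        j0 hj0 j
      · intro i j' hj'
        exact adjPR i _ t j' (by omega) (by simp only; omega) hj'
      · intro i w hw
        rcases adj_last i _ w hw with ⟨i', z', rfl⟩ | ⟨t', j', rfl, ht', hj'⟩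
        · exact Or.inl (hP _ _)
        · right
          refine ⟨j', ?_, hj'⟩
          have : t' = t := Fin.ext (by omega)
          rw [this]
    | succ s ih =>
      intro t ht0 j
      by_cases ht1 : t.val ≤ s
      · exact ih t ht1 j
      have ht : t.val = s + 1 := by omega
      have hs : s < k := by
        have := t.isLt
        omega
      have ih' := ih ⟨s, hs⟩ (le_refl _)
      obtain ⟨j0, hj0⟩ := hr t
      refine row_spread B t (fun i => .inr (.inl (⟨s, hs⟩, i.castSucc))) (fun i => ih' _) ?_ ?_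
        j0 hj0 j
      · intro i j' hj'
        refine adjRR _ _ _ _ (by simp only; omega) (by simp) ?_
        simpa using hj'
      · intro i w hw
        rcases adj_R _ _ w hw with ⟨i', z', rfl⟩ | ⟨t', j', rfl, ht'⟩ | ⟨t', j', rfl, ht', h2, h3⟩ | ⟨_, h2⟩
        · exact Or.inl (hP _ _)
        · left
          exact ih t' (by simp only at ht'; omega) j'
        · right
          refine ⟨j', ?_, by simpa using h3⟩
          have : t' = t := Fin.ext (by simp only at ht'; omega)
          rw [this]
        · exfalso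
          have := i.isLt
          simp only [Fin.val_castSucc] at h2
          omega
  intro v
  rcases v with ⟨i, z⟩ | ⟨t, j⟩ | t
  · exact hP i z
  · exact hR t.val t (le_refl _) j
  · refine Blue.force (hR t.val t (le_refl _) ⟨a, by omega⟩) (adjRC t ⟨a, by omega⟩ rfl) ?_
    intro w hw hne
    rcases adj_R _ _ w hw with ⟨i', z', rfl⟩ | ⟨t', j', rfl, ht'⟩ | ⟨t', j', rfl, ht', h2, h3⟩ | ⟨h1, h2⟩
    · exact hP _ _
    · exact hR _ _ (le_refl _) _
    · exact hR _ _ (le_refl _) _
    · exact absurd h1 hne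

/-! ### The probability bound -/

theorem prob_eq_ex {V : Type} [Fintype V] [DecidableEq V] (G : SimpleGraph V) (q : ℝ)
    [∀ B : Finset V, Decidable (IsZeroForcing G B)] :
    prob G q = ex q univ (fun B => if IsZeroForcing G B then 1 else 0) := by
  unfold prob ex
  rw [Finset.powerset_univ]
  apply Finset.sum_congr rfl
  intro B _
  congr 1
  · congr 3
    ext y
    simp
  · congr

/-- The event that path `i` contains no two consecutive blue vertices in even position. -/
def pairSet (i : Fin a) (x : Fin L) : Finset (VV a L k) :=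
  {.inl (i, ⟨2 * x.val, by omega⟩), .inl (i, ⟨2 * x.val + 1, by omega⟩)}

theorem prob_bound (ha : 0 < a) (q : ℝ) (h0 : 0 ≤ q) (h1 : q ≤ 1) :
    1 - a * (1 - q ^ 2) ^ L - k * (1 - q) ^ (a + 1) ≤ prob (GG a L k) q := by
  classical
  rw [prob_eq_ex]
  set f1 : Fin a → Finset (VV a L k) → ℝ :=
    fun i B => if ∀ x ∈ (univ : Finset (Fin L)), ¬ (pairSet i x) ⊆ B then 1 else 0 with hf1
  set f2 : Fin k → Finset (VV a L k) → ℝ :=
    fun t B => if ∀ j ∈ (univ : Finset (Fin (a + 1))),
      ¬ ({.inr (.inl (t, j))} : Finset (VV a L k)) ⊆ B then 1 else 0 with hf2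
  have e1 : ∀ i, ex q univ (f1 i) = (1 - q ^ 2) ^ L := by
    intro i
    have := ex_avoid q (univ : Finset (VV a L k)) (fun x : Fin L => pairSet i x) 2 univ
      (fun _ _ => Finset.subset_univ _) ?_ ?_
    · have h3 : ex q univ (f1 i) = (1 - q ^ 2) ^ (univ : Finset (Fin L)).card := by
        convert this
      rw [h3]; simp
    · intro x _
      unfold pairSet
      rw [Finset.card_pair]
      intro h
      simp at h
    · intro x _ y _ hxy
      rw [Finset.disjoint_left]
      intro v hv hv'
      unfold pairSet at hv hv'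
      rw [Finset.mem_insert, Finset.mem_singleton] at hv hv'
      have hne : x.val ≠ y.val := fun h => hxy (Fin.ext h)
      rcases hv with rfl | rfl <;> rcases hv' with h | h <;>
        simp only [Sum.inl.injEq, Prod.mk.injEq, Fin.mk.injEq, true_and] at h <;> omega
  have e2 : ∀ t, ex q univ (f2 t) = (1 - q) ^ (a + 1) := by
    intro t
    have := ex_avoid q (univ : Finset (VV a L k))
      (fun j : Fin (a + 1) => ({.inr (.inl (t, j))} : Finset (VV a L k))) 1 univ
      (fun _ _ => Finset.subset_univ _) ?_ ?_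
    · have h3 : ex q univ (f2 t) = (1 - q ^ 1) ^ (univ : Finset (Fin (a + 1))).card := by
        convert this
      rw [h3]; simp
    · intro x _
      simp
    · intro x _ y _ hxy
      simp [hxy]
  have key : ∀ B : Finset (VV a L k), (1 : ℝ) - (∑ i, f1 i B) - (∑ t, f2 t B)
      ≤ if IsZeroForcing (GG a L k) B then 1 else 0 := by
    intro B
    have n1 : ∀ i, 0 ≤ f1 i B := by
      intro i; simp only [hf1]; split_ifs <;> norm_num
    have n2 : ∀ t, 0 ≤ f2 t B := by
      intro t; simp only [hf2]; split_ifs <;> norm_num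
    have s1 : 0 ≤ ∑ i, f1 i B := Finset.sum_nonneg (fun i _ => n1 i)
    have s2 : 0 ≤ ∑ t, f2 t B := Finset.sum_nonneg (fun t _ => n2 t)
    by_cases hz : IsZeroForcing (GG a L k) B
    · rw [if_pos hz]
      linarith
    · rw [if_neg hz]
      by_cases c1 : ∃ i, ∀ x ∈ (univ : Finset (Fin L)), ¬ (pairSet i x : Finset (VV a L k)) ⊆ B
      · obtain ⟨i, hi⟩ := c1
        have : f1 i B = 1 := by simp only [hf1]; rw [if_pos hi]
        have := Finset.single_le_sum (f := fun i => f1 i B) (fun i _ => n1 i) (Finset.mem_univ i)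
        linarith
      by_cases c2 : ∃ t, ∀ j ∈ (univ : Finset (Fin (a + 1))),
          ¬ ({.inr (.inl (t, j))} : Finset (VV a L k)) ⊆ B
      · obtain ⟨t, ht⟩ := c2
        have : f2 t B = 1 := by simp only [hf2]; rw [if_pos ht]
        have := Finset.single_le_sum (f := fun t => f2 t B) (fun t _ => n2 t) (Finset.mem_univ t)
        linarith
      exfalso
      apply hz
      apply flood ha
      · intro i
        by_contra hcon
        apply c1
        refine ⟨i, ?_⟩
        intro x _ hsub
        apply hcon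
        refine ⟨x, hsub ?_, hsub ?_⟩ <;> simp [pairSet]
      · intro t
        by_contra hcon
        apply c2
        refine ⟨t, ?_⟩
        intro j _ hsub
        exact hcon ⟨j, hsub (by simp)⟩
  have h5 := ex_mono q h0 h1 univ _ _ key
  rw [ex_sub, ex_sub, ex_one, ex_sum, ex_sum] at h5
  simp only [e1, e2, Finset.sum_const, Finset.card_univ, Fintype.card_fin, nsmul_eq_mul] at h5
  exact h5

/-! ### The threshold -/

theorem prob_zero {V : Type} [Fintype V] (G : SimpleGraph V) (v : V) : prob G 0 = 0 := by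
  unfold prob
  apply Finset.sum_eq_zero
  intro B _
  by_cases hB : B = ∅
  · have : ¬ IsZeroForcing G B := by
      intro h
      have : ∀ w, Blue G B w → False := by
        intro w hw
        induction hw with
        | start h => rw [hB] at h; exact absurd h (Finset.notMem_empty _)
        | force _ _ _ ih _ => exact ih
      exact this v (h v)
    rw [if_neg this]
    ring
  · have : B.card ≠ 0 := by
      rw [Finset.card_ne_zero]
      exact Finset.nonempty_iff_ne_empty.mpr hB
    rw [zero_pow this]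
    ring

theorem prob_continuous {V : Type} [Fintype V] (G : SimpleGraph V) :
    Continuous (fun p => prob G p) := by
  unfold prob
  fun_prop

theorem numeric (c : ℝ) : ∃ s : ℕ, 1 ≤ s ∧ 5 / c ^ 2 < s ∧
    (s : ℝ) ^ 3 * Real.exp (-(s : ℝ)) + (s : ℝ) ^ 5 * Real.exp (-(s : ℝ)) < 1 / 2 := by
  have h1 := (Real.tendsto_pow_mul_exp_neg_atTop_nhds_zero 3).comp
    (tendsto_natCast_atTop_atTop (R := ℝ))
  have h2 := (Real.tendsto_pow_mul_exp_neg_atTop_nhds_zero 5).comp
    (tendsto_natCast_atTop_atTop (R := ℝ))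
  have h3 := h1.add h2
  rw [add_zero] at h3
  have h4 : ∀ᶠ s : ℕ in Filter.atTop,
      (s : ℝ) ^ 3 * Real.exp (-(s : ℝ)) + (s : ℝ) ^ 5 * Real.exp (-(s : ℝ)) < 1 / 2 := by
    have := h3.eventually (gt_mem_nhds (show (0 : ℝ) < 1 / 2 by norm_num))
    simpa using this
  have h5 : ∀ᶠ s : ℕ in Filter.atTop, 5 / c ^ 2 < (s : ℝ) :=
    (tendsto_natCast_atTop_atTop (R := ℝ)).eventually (Filter.eventually_gt_atTop _)
  obtain ⟨s, hs⟩ := ((Filter.eventually_ge_atTop 1).and (h5.and h4)).exists
  exact ⟨s, hs.1, hs.2.1, hs.2.2⟩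

theorem pow_le_exp (x : ℝ) (h1 : x ≤ 1) (m : ℕ) (r : ℝ) (hr : r ≤ x * m) :
    (1 - x) ^ m ≤ Real.exp (-r) := by
  have h2 : 1 - x ≤ Real.exp (-x) := by
    have := Real.add_one_le_exp (-x)
    linarith
  calc (1 - x) ^ m ≤ (Real.exp (-x)) ^ m := pow_le_pow_left₀ (by linarith) h2 m
    _ = Real.exp (-(x * m)) := by rw [← Real.exp_nat_mul]; congr 1; ring
    _ ≤ Real.exp (-r) := Real.exp_le_exp.mpr (by linarith)

theorem prob_large (s : ℕ) (hs : 1 ≤ s)
    (hn : (s : ℝ) ^ 3 * Real.exp (-(s : ℝ)) + (s : ℝ) ^ 5 * Real.exp (-(s : ℝ)) < 1 / 2)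
    (q : ℝ) (h0 : 1 / (s : ℝ) ^ 2 ≤ q) (h1 : q ≤ 1) :
    1 / 2 < prob (GG (s ^ 3) (s ^ 5) (s ^ 5)) q := by
  have hs0 : (0 : ℝ) < s := by exact_mod_cast hs
  have hq0 : 0 ≤ q := le_trans (by positivity) h0
  have hb := prob_bound (a := s ^ 3) (L := s ^ 5) (k := s ^ 5) (by positivity) q hq0 h1
  have e1 : (1 - q ^ 2) ^ (s ^ 5) ≤ Real.exp (-(s : ℝ)) := by
    apply pow_le_exp
    · nlinarith
    · have : (1 / (s : ℝ) ^ 2) ^ 2 ≤ q ^ 2 := pow_le_pow_left₀ (by positivity) h0 2
      have h3 : (s : ℝ) = (1 / (s : ℝ) ^ 2) ^ 2 * ((s ^ 5 : ℕ) : ℝ) := by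
        push_cast
        field_simp
      rw [h3]
      push_cast
      nlinarith [pow_pos hs0 5, h3]
  have e2 : (1 - q) ^ (s ^ 3 + 1) ≤ Real.exp (-(s : ℝ)) := by
    apply pow_le_exp
    · exact h1
    · have h3 : (s : ℝ) = (1 / (s : ℝ) ^ 2) * (s : ℝ) ^ 3 := by
        field_simp
      push_cast
      nlinarith [pow_pos hs0 3, h3]
  have g1 : ((s ^ 3 : ℕ) : ℝ) * (1 - q ^ 2) ^ (s ^ 5) ≤ (s : ℝ) ^ 3 * Real.exp (-(s : ℝ)) := by
    push_cast
    exact mul_le_mul_of_nonneg_left e1 (by positivity)
  have g2 : ((s ^ 5 : ℕ) : ℝ) * (1 - q) ^ (s ^ 3 + 1) ≤ (s : ℝ) ^ 5 * Real.exp (-(s : ℝ)) := by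
    push_cast
    exact mul_le_mul_of_nonneg_left e2 (by positivity)
  linarith

/-- For every `c > 0` there is a graph `G` on `n` vertices which contains a clique of size `k`,
`1 ≤ k ≤ n`, and whose threshold probability is smaller than `c * sqrt (k / n)`. -/
theorem result : ∀ c : ℝ, 0 < c → ∃ (V : Type) (_ : Fintype V) (G : SimpleGraph V) (k : ℕ),
    1 ≤ k ∧ k ≤ Fintype.card V ∧ (∃ K : Finset V, G.IsNClique k K) ∧
    (∃ p, IsThreshold G p) ∧
    ∀ p, IsThreshold G p → p < c * Real.sqrt ((k : ℝ) / (Fintype.card V : ℝ)) := by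
  intro c hc
  obtain ⟨s, hs, hs5, hn⟩ := numeric c
  have hs0 : (0 : ℝ) < s := by exact_mod_cast hs
  have hcard : Fintype.card (VV (s ^ 3) (s ^ 5) (s ^ 5)) = 3 * s ^ 8 + 2 * s ^ 5 := by
    simp only [VV, Fintype.card_sum, Fintype.card_prod, Fintype.card_fin]
    ring
  have hbound : 1 / (s : ℝ) ^ 2 < c * Real.sqrt (((s ^ 5 : ℕ) : ℝ) /
      (Fintype.card (VV (s ^ 3) (s ^ 5) (s ^ 5)) : ℝ)) := by
    rw [hcard]
    have h1 : 1 / (s : ℝ) ^ 2 / c < Real.sqrt (((s ^ 5 : ℕ) : ℝ) /
        ((3 * s ^ 8 + 2 * s ^ 5 : ℕ) : ℝ)) := by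
      apply Real.lt_sqrt_of_sq_lt
      push_cast
      rw [div_pow, div_pow, one_pow, div_div, div_lt_div_iff₀ (by positivity) (by positivity)]
      have h2 : 5 < c ^ 2 * s := by
        rw [div_lt_iff₀ (by positivity)] at hs5
        linarith
      have h3 : (1 : ℝ) ≤ s := by exact_mod_cast hs
      have h4 : (s : ℝ) ^ 5 ≤ (s : ℝ) ^ 8 := pow_le_pow_right₀ h3 (by norm_num)
      have h5 : (0 : ℝ) < (s : ℝ) ^ 8 := by positivity
      nlinarith [mul_lt_mul_of_pos_left h2 h5]
    rw [div_lt_iff₀ hc] at h1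
    linarith
  refine ⟨VV (s ^ 3) (s ^ 5) (s ^ 5), inferInstance, GG (s ^ 3) (s ^ 5) (s ^ 5), s ^ 5,
    Nat.one_le_pow _ _ hs, ?_, ?_, ?_, ?_⟩
  · rw [hcard]
    nlinarith [Nat.zero_le (s ^ 8)]
  · refine ⟨univ.map ⟨fun t : Fin (s ^ 5) => .inr (.inr t), ?_⟩, ?_⟩
    · intro t t' h
      simpa using h
    · rw [SimpleGraph.isNClique_iff]
      constructor
      · intro v hv w hw hne
        simp only [Finset.coe_map, Function.Embedding.coeFn_mk, Finset.coe_univ,
          Set.image_univ, Set.mem_range] at hv hw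
        obtain ⟨t, rfl⟩ := hv
        obtain ⟨t', rfl⟩ := hw
        rw [GG, SimpleGraph.fromRel_adj]
        refine ⟨hne, Or.inl ?_⟩
        simp only [rel]
        intro h
        exact hne (by rw [h])
      · simp
  · have hp1 : 1 / (s : ℝ) ^ 2 ≤ 1 := by
      rw [div_le_one (by positivity)]
      exact one_le_pow₀ (by exact_mod_cast hs)
    have hlarge := prob_large s hs hn (1 / (s : ℝ) ^ 2) (le_refl _) hp1
    have hv : VV (s ^ 3) (s ^ 5) (s ^ 5) := .inr (.inr ⟨0, by positivity⟩)
    have h0 := prob_zero (GG (s ^ 3) (s ^ 5) (s ^ 5)) hv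
    have hivt := intermediate_value_Icc (show (0 : ℝ) ≤ 1 / (s : ℝ) ^ 2 by positivity)
      (prob_continuous (GG (s ^ 3) (s ^ 5) (s ^ 5))).continuousOn
    have hmem : (1 / 2 : ℝ) ∈ Set.Icc (prob (GG (s ^ 3) (s ^ 5) (s ^ 5)) 0)
        (prob (GG (s ^ 3) (s ^ 5) (s ^ 5)) (1 / (s : ℝ) ^ 2)) := by
      rw [h0]
      exact ⟨by norm_num, hlarge.le⟩
    obtain ⟨p, hp, hp2⟩ := hivt hmem
    exact ⟨p, hp.1, le_trans hp.2 hp1, hp2⟩
  · intro p hp
    have hlt : p < 1 / (s : ℝ) ^ 2 := by
      by_contra hcon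
      have := prob_large s hs hn p (not_lt.mp hcon) hp.2.1
      rw [hp.2.2] at this
      exact lt_irrefl _ this
    exact lt_trans hlt hbound

end Pool.Agent.Results.MP_4451bf_co.CliqueThreshold
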